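import Pool.Agent.Helper10.BrooksProof

/-!
# Termwise homogenization of infinite sums of Brooks quasimorphisms (MP_c1a8be_al, Q1)

We disprove the statement of Q1: for every non-abelian free group `F` of finite rank there is an
alternating coefficient map `α` supported on the set `𝒩` of non-self-overlapping words, with values
in `{-1, 0, 1}`, such that the termwise homogenized sum `φ̃_α` is a quasimorphism (it is `0`), while
`φ_α` is not a quasimorphism.

The idea: let `v` be a non-self-overlapping word whose last letter is the inverse of its first
letter. Then all words `v t` (`t ≠` first letter) are non-self-overlapping, and for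
`v = v_k = a (b a⁻¹)^k` also all words `t v` (`t ≠ a⁻¹`) are. As
`∑_t #_{v t}(g) = #_v(g) - [v is a suffix of g]` and `∑_t #_{t v}(g) = #_v(g) - [v begins g]`,
the function `∑_t h_{v t} - ∑_t h_{t v}` is a bounded function (a boundary term) whose termwise
homogenization vanishes. Since the words `v_k` are nested, the sum over all `k ≥ 1` of these
functions is unbounded on the words `v_K b`, but vanishes on `b v_K b` and on `b⁻¹`.
-/

set_option autoImplicit false

open Filter Topology
open Pool.Agent.Helper10.Brooks

namespace Pool.Agent.Results.MP_c1a8be_al.TermwiseBrooks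

universe u

/-- **Main theorem** (disproof of Q1 of MP_c1a8be_al). Let `F` be the free group on a finite set `S`
with at least two elements and let `P = 𝒩⁺` be any choice of representatives. The limits defining
`\bar h_w`, `w ∈ 𝒩`, exist, both sums have only finitely many nonzero terms at each `g`, and there
is an alternating coefficient map `α`, supported on `𝒩` and with values in `{-1, 0, 1}`, such that
`φ̃_α = 0` is a quasimorphism but `φ_α` is not a quasimorphism. -/
theorem result {S : Type u} [Finite S] [Nontrivial S] [DecidableEq S]
    (P : Set (FreeGroup S)) (hP : IsPositiveHalf P) :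
    ((∀ w ∈ nonSelfOverlapping S, ∀ g : FreeGroup S,
        Tendsto (fun n : ℕ => brooks w (g ^ n) / n) atTop (𝓝 (homogenization (brooks w) g))) ∧
      (∀ g : FreeGroup S, {w ∈ P | brooks w g ≠ 0}.Finite) ∧
      (∀ g : FreeGroup S, {w ∈ P | homogenization (brooks w) g ≠ 0}.Finite)) ∧
    ∃ α : FreeGroup S → ℝ,
      (∀ w, α w = -1 ∨ α w = 0 ∨ α w = 1) ∧
      (∀ w, α w⁻¹ = - α w) ∧
      (∀ w, w ∉ nonSelfOverlapping S → α w = 0) ∧
      (∀ g, phiTilde P α g = 0) ∧
      IsQuasimorphism (phiTilde P α) ∧
      ¬ IsQuasimorphism (phi P α) :=
  main_result P hP

end Pool.Agent.Results.MP_c1a8be_al.TermwiseBrooks
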